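import Pool.Agent.H30.HYP.Conv

/-!
# The hyperplane conjecture of Kannan, Lovasz and Simonovits for symmetric convex bodies

There is a universal constant `C` such that in every dimension and for every bounded convex
symmetric set of positive volume some central hyperplane section has measure at most `C` times the
relative perimeter of every subset of half the volume.  No minimality of the subset is needed.
-/

set_option autoImplicit false

namespace Pool.Agent.Results.MP_dc1397_gt.HyperplaneInequality

open Pool.H30.HYP

/-- **The hyperplane conjecture of Kannan, Lovasz and Simonovits.**  There is a constant `C` such
that for every `n ≥ 1`, every Euclidean space `E` of dimension `n` and every bounded convex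
symmetric set `Ω` of positive volume in `E` there is `a ≠ 0` such that, for every measurable
`F ⊆ Ω` of half the volume, the `(n-1)`-dimensional measure of `Ω ∩ a^⊥` is at most `C` times the
smaller of the perimeter of `F` relative to `Ω` and the measure of the part of the topological
boundary of `F` in `Ω`. -/
theorem result : ∃ C : NNReal, ∀ (E : Type) [NormedAddCommGroup E] [InnerProductSpace ℝ E]
    [FiniteDimensional ℝ E] [MeasurableSpace E] [BorelSpace E], Hyperplane C E :=
  main

end Pool.Agent.Results.MP_dc1397_gt.HyperplaneInequality
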